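import Mathlib

/-!
# Inner products that avoid a set
-/

set_option autoImplicit false

open Finset

namespace Pool.Agent.V8H45.TS

variable {F : Type} [Field F] [Fintype F] [DecidableEq F]

/-- the number of solutions of a linear equation -/
theorem card_hyper {m : ℕ} (d : Fin m → F) (hd : d ≠ 0) :
    (univ.filter fun z : Fin m → F => ∑ l, z l * d l = 0).card * Fintype.card F =
      Fintype.card F ^ m := by
  classical
  obtain ⟨i, hi⟩ : ∃ i, d i ≠ 0 := by
    by_contra h
    push Not at h
    exact hd (funext h)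
  have h1 : (univ : Finset (Fin m → F)).card = ∑ c : F,
      (univ.filter fun z : Fin m → F => ∑ l, z l * d l = c).card :=
    Finset.card_eq_sum_card_fiberwise fun _ _ => mem_univ _
  have hs : ∀ (c : F), ∑ l, (Pi.single i (c / d i) : Fin m → F) l * d l = c := by
    intro c
    rw [Finset.sum_eq_single i]
    · rw [Pi.single_eq_same]
      field_simp
    · intro l _ hl
      rw [Pi.single_eq_of_ne hl, zero_mul]
    · intro h
      exact absurd (mem_univ _) h
  have h2 : ∀ c : F, (univ.filter fun z : Fin m → F => ∑ l, z l * d l = c).card =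
      (univ.filter fun z : Fin m → F => ∑ l, z l * d l = 0).card := by
    intro c
    refine Finset.card_nbij' (fun z => z - Pi.single i (c / d i)) (fun z => z + Pi.single i (c / d i))
      ?_ ?_ ?_ ?_
    · intro z hz
      have hz' : ∑ l, z l * d l = c := by simpa using hz
      have : ∑ l, (z - Pi.single i (c / d i) : Fin m → F) l * d l = 0 := by
        simp only [Pi.sub_apply, sub_mul, Finset.sum_sub_distrib]
        rw [hz', hs, sub_self]
      simpa using this
    · intro z hz
      have hz' : ∑ l, z l * d l = 0 := by simpa using hz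
      have : ∑ l, (z + Pi.single i (c / d i) : Fin m → F) l * d l = c := by
        simp only [Pi.add_apply, add_mul, Finset.sum_add_distrib]
        rw [hz', hs, zero_add]
      simpa using this
    · intro z _
      simp
    · intro z _
      simp
  rw [Finset.sum_congr rfl fun c _ => h2 c, Finset.sum_const, smul_eq_mul, Finset.card_univ,
    Finset.card_univ, Fintype.card_fun, Fintype.card_fin] at h1
  rw [mul_comm, ← h1]

theorem avoid {X Y : Type} {m M : ℕ} (A : Finset X) (B : Finset Y) (u : X → Fin m → F)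
    (w : Y → Fin m → F) (hA : ∀ z, (A.filter fun a => u a = z).card ≤ M)
    (hB : ∀ z, (B.filter fun b => w b = z).card ≤ M) (p : F) (T : Finset F)
    (h : ∀ a ∈ A, ∀ b ∈ B, p + ∑ l, u a l * w b l ∉ T) :
    A.card * B.card * T.card ≤ M ^ 2 * Fintype.card F ^ (m + 2) := by
  classical
  rcases Nat.eq_zero_or_pos B.card with hB0 | hBpos
  · rw [hB0]
    simp
  obtain ⟨q, hq⟩ : ∃ q : ℝ, q = Fintype.card F := ⟨_, rfl⟩
  have hqpos : 0 < q := by
    rw [hq]
    exact_mod_cast Fintype.card_pos
  obtain ⟨nB, hnB⟩ : ∃ nB : ℝ, nB = B.card := ⟨_, rfl⟩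
  have hnBpos : 0 < nB := by
    rw [hnB]
    exact_mod_cast hBpos
  -- numbers of elements with a given inner product
  set N : (Fin m → F) → F → ℝ := fun z s => ((B.filter fun b => ∑ l, z l * w b l = s).card : ℝ)
    with hN
  set Q : (Fin m → F) → ℝ := fun z => ∑ s, N z s ^ 2 with hQ
  have hsum : ∀ z, ∑ s, N z s = nB := by
    intro z
    rw [hnB]
    simp only [hN]
    rw [← Nat.cast_sum]
    congr 1
    exact (Finset.card_eq_sum_card_fiberwise fun _ _ => mem_univ _).symm
  have hQ0 : ∀ z, 0 ≤ Q z := fun z => Finset.sum_nonneg fun s _ => sq_nonneg _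
  have hCS : ∀ z, nB ^ 2 ≤ q * Q z := by
    intro z
    have := sq_sum_le_card_mul_sum_sq (s := (univ : Finset F)) (f := N z)
    rw [hsum, Finset.card_univ, ← hq] at this
    exact this
  -- the pairs
  have hpair : ∀ z, Q z = (((B ×ˢ B).filter fun r => ∑ l, z l * w r.1 l = ∑ l, z l * w r.2 l).card :
      ℝ) := by
    intro z
    have h1 : ((B ×ˢ B).filter fun r => ∑ l, z l * w r.1 l = ∑ l, z l * w r.2 l).card =
        ∑ s : F, (B.filter fun b => ∑ l, z l * w b l = s).card ^ 2 := by
      rw [Finset.card_eq_sum_card_fiberwise (f := fun r => ∑ l, z l * w r.1 l)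
        (t := (univ : Finset F)) fun _ _ => mem_univ _]
      refine Finset.sum_congr rfl fun s _ => ?_
      rw [sq, ← Finset.card_product]
      congr 1
      ext r
      simp only [Finset.mem_filter, Finset.mem_product]
      constructor
      · rintro ⟨⟨⟨h1, h2⟩, h3⟩, h4⟩
        exact ⟨⟨h1, h4⟩, h2, by rw [← h3]; exact h4⟩
      · rintro ⟨⟨h1, h2⟩, h3, h4⟩
        exact ⟨⟨⟨h1, h3⟩, by rw [h2, h4]⟩, h2⟩
    rw [h1]
    push_cast
    rfl
  -- the sum over all vectors
  have hqm : ∀ r : Y × Y, q * ((univ.filter fun z : Fin m → F => ∑ l, z l * w r.1 l =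
      ∑ l, z l * w r.2 l).card : ℝ) ≤ q ^ m + (if w r.1 = w r.2 then q ^ (m + 1) else 0) := by
    intro r
    by_cases hr : w r.1 = w r.2
    · rw [if_pos hr]
      have h1 : (univ.filter fun z : Fin m → F => ∑ l, z l * w r.1 l = ∑ l, z l * w r.2 l) = univ := by
        rw [hr]
        simp
      rw [h1, Finset.card_univ, Fintype.card_fun, Fintype.card_fin]
      push_cast
      rw [← hq, pow_succ]
      have : 0 < q ^ m := by positivity
      nlinarith
    · rw [if_neg hr, add_zero]
      have h1 : (univ.filter fun z : Fin m → F => ∑ l, z l * w r.1 l = ∑ l, z l * w r.2 l) =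
          univ.filter fun z : Fin m → F => ∑ l, z l * (w r.1 - w r.2) l = 0 := by
        ext z
        simp only [Finset.mem_filter, Finset.mem_univ, true_and, Pi.sub_apply, mul_sub,
          Finset.sum_sub_distrib]
        exact sub_eq_zero.symm
      have h2 := card_hyper (w r.1 - w r.2) (sub_ne_zero.2 hr)
      rw [h1, hq]
      have h3 : ((univ.filter fun z : Fin m → F => ∑ l, z l * (w r.1 - w r.2) l = 0).card : ℝ) *
          Fintype.card F = (Fintype.card F : ℝ) ^ m := by exact_mod_cast h2
      rw [mul_comm, h3]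
  have hsame : (((B ×ˢ B).filter fun r => w r.1 = w r.2).card : ℝ) ≤ M * nB := by
    have h1 : ((B ×ˢ B).filter fun r => w r.1 = w r.2).card ≤ B.card * M := by
      rw [Finset.card_eq_sum_card_fiberwise (f := fun r => r.1) (t := B)
        fun r hr => (Finset.mem_product.1 (Finset.mem_filter.1 hr).1).1]
      refine le_trans (Finset.sum_le_card_nsmul _ _ M fun b hb => ?_) (by rw [smul_eq_mul])
      refine le_trans (Finset.card_le_card_of_injOn (fun r => r.2) (t := B.filter fun b' => w b' = w b)
        ?_ ?_) (hB (w b))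
      · intro r hr
        simp only [Finset.coe_filter, Finset.mem_filter, Finset.mem_product, Set.mem_ofPred_eq] at hr ⊢
        obtain ⟨⟨⟨h1, h2⟩, h3⟩, h4⟩ := hr
        exact ⟨h2, by rw [← h3, h4]⟩
      · intro r hr r' hr' hrr
        simp only [Finset.coe_filter, Finset.mem_filter, Set.mem_ofPred_eq] at hr hr'
        exact Prod.ext (hr.2.trans hr'.2.symm) hrr
    have h2 : (((B ×ˢ B).filter fun r => w r.1 = w r.2).card : ℝ) ≤ (B.card : ℝ) * M := by
      exact_mod_cast h1
    rw [hnB]
    linarith
  have htot : ∑ z, (q * Q z - nB ^ 2) ≤ q ^ (m + 1) * (M * nB) := by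
    have h1 : ∑ z, q * Q z ≤ q ^ m * nB ^ 2 + q ^ (m + 1) * (M * nB) := by
      have h2 : ∑ z, Q z = ∑ r ∈ B ×ˢ B, ((univ.filter fun z : Fin m → F => ∑ l, z l * w r.1 l =
          ∑ l, z l * w r.2 l).card : ℝ) := by
        simp only [hpair, Finset.card_filter, Nat.cast_sum]
        rw [Finset.sum_comm]
      rw [← Finset.mul_sum, h2, Finset.mul_sum]
      refine (Finset.sum_le_sum fun r _ => hqm r).trans ?_
      rw [Finset.sum_add_distrib, Finset.sum_const, Finset.card_product, nsmul_eq_mul]
      refine add_le_add (le_of_eq ?_) ?_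
      · push_cast
        rw [← hnB]
        ring
      · rw [← Finset.sum_filter, Finset.sum_const, nsmul_eq_mul, mul_comm]
        exact mul_le_mul_of_nonneg_left hsame (by positivity)
    have h3 : ∑ _z : Fin m → F, nB ^ 2 = q ^ m * nB ^ 2 := by
      rw [Finset.sum_const, Finset.card_univ, Fintype.card_fun, Fintype.card_fin, nsmul_eq_mul, hq]
      push_cast
      ring
    rw [Finset.sum_sub_distrib, h3]
    linarith
  have hE0 : ∀ z, 0 ≤ q * Q z - nB ^ 2 := fun z => by linarith [hCS z]
  -- the vectors of `A`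
  have hlow : ∀ a ∈ A, (T.card : ℝ) * nB ^ 2 / q ≤ q * Q (u a) - nB ^ 2 := by
    intro a ha
    set T' : Finset F := T.image fun s => s - p with hT'
    have hcard : T'.card = T.card :=
      Finset.card_image_of_injective _ fun s s' hss => by simpa using hss
    have hzero : ∀ s ∈ T', N (u a) s = 0 := by
      intro s hs
      obtain ⟨t, ht, rfl⟩ := Finset.mem_image.1 hs
      simp only [hN]
      rw [Nat.cast_eq_zero, Finset.card_eq_zero, Finset.filter_eq_empty_iff]
      intro b hb hbs
      refine h a ha b hb ?_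
      rw [hbs]
      simpa using ht
    have h1 : ∑ s ∈ univ \ T', N (u a) s = nB := by
      rw [← hsum (u a), ← Finset.sum_sdiff (Finset.subset_univ T'), Finset.sum_eq_zero hzero,
        add_zero]
    have h2 := sq_sum_le_card_mul_sum_sq (s := univ \ T') (f := N (u a))
    rw [h1] at h2
    have h3 : ∑ s ∈ univ \ T', N (u a) s ^ 2 ≤ Q (u a) :=
      Finset.sum_le_sum_of_subset_of_nonneg (Finset.subset_univ _) fun _ _ _ => sq_nonneg _
    have h4 : ((univ \ T').card : ℝ) = q - T.card := by
      rw [Finset.card_sdiff_of_subset (Finset.subset_univ _), hcard, Finset.card_univ,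
        Nat.cast_sub (by rw [← Finset.card_univ]; exact Finset.card_le_univ T), hq]
    have h5 : nB ^ 2 ≤ (q - T.card) * Q (u a) := by
      refine h2.trans ?_
      rw [h4]
      refine mul_le_mul_of_nonneg_left h3 ?_
      rw [← h4]
      positivity
    have h6 := hCS (u a)
    have h7 : nB ^ 2 / q ≤ Q (u a) := by
      rw [div_le_iff₀ hqpos]
      linarith
    have h8 : (T.card : ℝ) * (nB ^ 2 / q) ≤ T.card * Q (u a) :=
      mul_le_mul_of_nonneg_left h7 (by positivity)
    have h9 : (T.card : ℝ) * nB ^ 2 / q = T.card * (nB ^ 2 / q) := by ring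
    rw [h9]
    linarith
  have hup : ∑ a ∈ A, (q * Q (u a) - nB ^ 2) ≤ M * (q ^ (m + 1) * (M * nB)) := by
    have h1 : ∑ a ∈ A, (q * Q (u a) - nB ^ 2) =
        ∑ z : Fin m → F, ∑ a ∈ A.filter fun a => u a = z, (q * Q (u a) - nB ^ 2) :=
      (Finset.sum_fiberwise_of_maps_to (fun _ _ => mem_univ _) _).symm
    rw [h1]
    calc ∑ z : Fin m → F, ∑ a ∈ A.filter fun a => u a = z, (q * Q (u a) - nB ^ 2)
        ≤ ∑ z : Fin m → F, M * (q * Q z - nB ^ 2) := by
          refine Finset.sum_le_sum fun z _ => ?_
          rw [Finset.sum_congr rfl (g := fun _ => q * Q z - nB ^ 2) fun a ha => by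
            rw [(Finset.mem_filter.1 ha).2], Finset.sum_const, nsmul_eq_mul]
          exact mul_le_mul_of_nonneg_right (by exact_mod_cast hA z) (hE0 z)
      _ = M * ∑ z : Fin m → F, (q * Q z - nB ^ 2) := by rw [Finset.mul_sum]
      _ ≤ _ := mul_le_mul_of_nonneg_left htot (by positivity)
  have hfin : (A.card : ℝ) * (T.card * nB ^ 2 / q) ≤ M * (q ^ (m + 1) * (M * nB)) := by
    refine le_trans ?_ hup
    rw [← nsmul_eq_mul, ← Finset.sum_const]
    exact Finset.sum_le_sum hlow
  have hfin2 : (A.card : ℝ) * nB * T.card ≤ M ^ 2 * q ^ (m + 2) := by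
    have h1 : (A.card : ℝ) * (T.card * nB ^ 2 / q) * (q / nB) ≤
        M * (q ^ (m + 1) * (M * nB)) * (q / nB) :=
      mul_le_mul_of_nonneg_right hfin (by positivity)
    have h2 : (A.card : ℝ) * (T.card * nB ^ 2 / q) * (q / nB) = A.card * nB * T.card := by
      field_simp
    have h3 : (M : ℝ) * (q ^ (m + 1) * (M * nB)) * (q / nB) = M ^ 2 * q ^ (m + 2) := by
      field_simp
      ring
    rw [h2, h3] at h1
    exact h1
  rw [hnB, hq] at hfin2
  exact_mod_cast hfin2

end Pool.Agent.V8H45.TS
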