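import Mathlib
import Pool.Agent.V8H39.SR.Final
import Pool.Agent.V8H45.TS.Lower

/-!
# Both sides are hard
-/

set_option autoImplicit false

open Finset

namespace Pool.Agent.V8H45.TS

open Pool.Agent.V8H39.SR

theorem numT {q Q c E T n s : ℕ} (hQ : 1 ≤ Q) (hq2 : q = 2 * (q / 2)) (hQq : (4 * Q) ^ 8 ≤ q)
    (hc : 8 * T * 2 ^ c ≤ q) (hn : n ≤ q ^ 2) (hs : s ≤ n ^ E) :
    8 * T * (2 * s ^ 2) ^ c * q ^ (8 * E * c + 4 + 1) ≤ (q / 2 / Q) ^ (2 * (8 * E * c + 4)) := by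
  obtain ⟨r, hr⟩ : ∃ r, r = q / 2 / Q := ⟨_, rfl⟩
  rw [← hr]
  have hQ2 : (4 * Q) ^ 2 ≤ q := (Nat.pow_le_pow_right (by omega) (by norm_num)).trans hQq
  have hr1 : 1 ≤ r := by
    rw [hr]
    refine (Nat.le_div_iff_mul_le hQ).2 ?_
    have : (4 * Q) ^ 2 = 16 * (Q * Q) := by ring
    have h2 : Q * 1 ≤ Q * Q := Nat.mul_le_mul_left _ hQ
    omega
  have h1 : q / 2 < Q * (r + 1) := by
    rw [hr]
    exact Nat.lt_mul_div_succ _ hQ
  have h2 : q ≤ 4 * Q * r := by
    have h3 : Q * 1 ≤ Q * r := Nat.mul_le_mul_left _ hr1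
    have h4 : Q * (r + 1) = Q * r + Q := by ring
    have h5 : 4 * Q * r = 4 * (Q * r) := by ring
    omega
  have hq1 : 1 ≤ q := by
    have : 1 ≤ (4 * Q) ^ 8 := Nat.one_le_pow _ _ (by omega)
    omega
  have h3 : q ^ 7 ≤ r ^ 8 := by
    have hpos : 0 < (4 * Q) ^ 8 := by positivity
    refine Nat.le_of_mul_le_mul_left ?_ hpos
    calc (4 * Q) ^ 8 * q ^ 7 ≤ q * q ^ 7 := Nat.mul_le_mul_right _ hQq
      _ = q ^ 8 := by ring
      _ ≤ (4 * Q * r) ^ 8 := Nat.pow_le_pow_left h2 8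
      _ = (4 * Q) ^ 8 * r ^ 8 := by ring
  calc 8 * T * (2 * s ^ 2) ^ c * q ^ (8 * E * c + 4 + 1)
      ≤ 8 * T * (2 * ((q ^ 2) ^ E) ^ 2) ^ c * q ^ (8 * E * c + 4 + 1) := by
        have : s ≤ (q ^ 2) ^ E := hs.trans (Nat.pow_le_pow_left hn E)
        gcongr
    _ = (8 * T * 2 ^ c) * q ^ (12 * E * c + 5) := by
        rw [mul_pow, ← pow_mul, ← pow_mul, ← pow_mul]
        have e1 : 12 * E * c + 5 = 2 * (E * (2 * c)) + (8 * E * c + 4 + 1) := by ring
        rw [e1, pow_add]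
        ring
    _ ≤ q * q ^ (12 * E * c + 5) := Nat.mul_le_mul_right _ hc
    _ = q ^ (12 * E * c + 6) := by ring
    _ ≤ q ^ (7 * (2 * E * c + 1)) := Nat.pow_le_pow_right hq1 (by
        have : 7 * (2 * E * c + 1) = 14 * (E * c) + 7 := by ring
        have h5 : 12 * E * c + 6 = 12 * (E * c) + 6 := by ring
        omega)
    _ = (q ^ 7) ^ (2 * E * c + 1) := by rw [pow_mul]
    _ ≤ (r ^ 8) ^ (2 * E * c + 1) := Nat.pow_le_pow_left h3 _
    _ = r ^ (2 * (8 * E * c + 4)) := by rw [← pow_mul]; congr 1; ring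

/-- Programs without a store with at most `n ^ E` configurations and `k * n` reads which only accept
inputs in `L` accept at most a part `1 / 2 ^ E` of all inputs. -/
def HardT (k E n : ℕ) (L : (Fin n → Bool) → Prop) : Prop :=
  ∀ P : Mach (Fin n), P.Storeless → (∀ x, P.Answers x true → L x) →
    (∃ κ : Fin n → ℕ, ∑ v, κ v ≤ k * n ∧ ∀ l, P.Path l true → ∀ v, l.count v ≤ κ v) →
    Fintype.card P.Conf ≤ n ^ E → 2 ^ E * Nat.card {x // P.Answers x true} ≤ 2 ^ n

theorem HardT.mono {k E E' n : ℕ} {L : (Fin n → Bool) → Prop} (h : HardT k E' n L)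
    (hE : E ≤ E') (hn : 1 ≤ n) : HardT k E n L := by
  intro P hs hL hκ hc
  exact (Nat.mul_le_mul_right _ (Nat.pow_le_pow_right (by norm_num) hE)).trans
    (h P hs hL hκ (hc.trans (Nat.pow_le_pow_right hn hE)))

/-- machines for the tree function -/
theorem lower_accT {D : ℕ} {F : Type} [Field F] [Fintype F] [DecidableEq F] [CharP F 2]
    {h k m r E : ℕ} (hD : D = DD (8 * k)) (hr : 1 ≤ r) (hm : 1 ≤ m)
    (hh : 2 ^ (8 * k * (8 * k)) * (2 * m) * 2 + 1 ≤ h)
    (hq : 2 * (r * GG (8 * k) ^ h) ≤ Fintype.card F) (P : Mach (Var D F h)) (hs : P.Storeless)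
    (κ : Var D F h → ℕ) (hκ : ∑ v, κ v ≤ k * Fintype.card (Var D F h))
    (hp : ∀ L, P.Path L true → ∀ v, L.count v ≤ κ v) (U : Finset F)
    (hU : Fintype.card F ≤ 4 * U.card)
    (hacc : ∀ x, P.Answers x true → val h x ∉ U)
    (hC : 2 * E * ((h + 1) * nodes D h) ≤ Fintype.card F)
    (hnum : 8 * E * (2 * Fintype.card P.Conf ^ 2) ^ (2 * (8 * k) + 1) * Fintype.card F ^ (m + 1) ≤
      r ^ (2 * m)) :
    E * Nat.card {x // P.Answers x true} ≤ 2 ^ Fintype.card (Var D F h) := by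
  classical
  have hlow := lower_varT hD hr hm hh hq P hs κ hκ hp U hacc
  have hconf : 0 < Fintype.card P.Conf := Fintype.card_pos_iff.2 ⟨P.start⟩
  have hq0 : 0 < Fintype.card F := Fintype.card_pos
  obtain ⟨c, hc⟩ : ∃ c, c = (2 * Fintype.card P.Conf ^ 2) ^ (2 * (8 * k) + 1) := ⟨_, rfl⟩
  rw [← hc] at hlow hnum
  have hcpos : 0 < c := by rw [hc]; positivity
  have hUpos : 0 < U.card := by omega
  obtain ⟨a, ha⟩ : ∃ a, a = Nat.card {x // P.Answers x true ∧ Nice h x} := ⟨_, rfl⟩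
  obtain ⟨N, hN⟩ : ∃ N, N = 2 ^ Fintype.card (Var D F h) := ⟨_, rfl⟩
  rw [← ha, ← hN] at hlow
  have hX : 2 * E * a ≤ N := by
    have h1 : 2 * E * (c * Fintype.card F ^ (m + 2)) ≤ U.card * r ^ (2 * m) := by
      have h2 : 4 * (2 * E * (c * Fintype.card F ^ (m + 2))) ≤ 4 * (U.card * r ^ (2 * m)) := by
        calc 4 * (2 * E * (c * Fintype.card F ^ (m + 2)))
            = Fintype.card F * (8 * E * c * Fintype.card F ^ (m + 1)) := by ring
          _ ≤ Fintype.card F * r ^ (2 * m) := Nat.mul_le_mul_left _ hnum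
          _ ≤ (4 * U.card) * r ^ (2 * m) := Nat.mul_le_mul_right _ hU
          _ = 4 * (U.card * r ^ (2 * m)) := by ring
      omega
    have hpos : 0 < c * Fintype.card F ^ (m + 2) := by positivity
    refine Nat.le_of_mul_le_mul_right ?_ hpos
    calc 2 * E * a * (c * Fintype.card F ^ (m + 2))
        = a * (2 * E * (c * Fintype.card F ^ (m + 2))) := by ring
      _ ≤ a * (U.card * r ^ (2 * m)) := Nat.mul_le_mul_left _ h1
      _ ≤ c * (N * Fintype.card F ^ (m + 2)) := hlow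
      _ = N * (c * Fintype.card F ^ (m + 2)) := by ring
  have hbad : 2 * E * Nat.card {x : Var D F h → Bool // ¬ Nice h x} ≤ N := by
    have h1 := nice_count_le D h F
    rw [← hN] at h1
    refine Nat.le_of_mul_le_mul_right ?_ hq0
    calc 2 * E * Nat.card {x : Var D F h → Bool // ¬ Nice h x} * Fintype.card F
        = 2 * E * (Nat.card {x : Var D F h → Bool // ¬ Nice h x} * Fintype.card F) := by ring
      _ ≤ 2 * E * ((h + 1) * nodes D h * N) := Nat.mul_le_mul_left _ h1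
      _ = 2 * E * ((h + 1) * nodes D h) * N := by ring
      _ ≤ Fintype.card F * N := Nat.mul_le_mul_right _ hC
      _ = N * Fintype.card F := by ring
  have hsplit : Nat.card {x // P.Answers x true} ≤ a +
      Nat.card {x : Var D F h → Bool // ¬ Nice h x} := by
    rw [ha, ← Nat.card_sum]
    refine Nat.card_le_card_of_injective (fun x : {x // P.Answers x true} =>
      if hx : Nice h x.1 then Sum.inl ⟨x.1, x.2, hx⟩ else Sum.inr ⟨x.1, hx⟩) ?_
    intro x y hxy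
    dsimp only at hxy
    split_ifs at hxy with h1 h2 h3
    · exact Subtype.ext (congrArg (fun z => z.1) (Sum.inl.inj hxy))
    · exact Subtype.ext (congrArg (fun z => z.1) (Sum.inr.inj hxy))
  rw [← hN]
  have h3 : 2 * (E * Nat.card {x // P.Answers x true}) ≤ 2 * N := by
    calc 2 * (E * Nat.card {x // P.Answers x true})
        ≤ 2 * (E * (a + Nat.card {x : Var D F h → Bool // ¬ Nice h x})) :=
          Nat.mul_le_mul_left _ (Nat.mul_le_mul_left _ hsplit)
      _ = 2 * E * a + 2 * E * Nat.card {x : Var D F h → Bool // ¬ Nice h x} := by ring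
      _ ≤ N + N := Nat.add_le_add hX hbad
      _ = 2 * N := by ring
  omega

/-- padding -/
theorem hard_of_varT {D : ℕ} {F : Type} [Field F] [Fintype F] [DecidableEq F]
    {h k n E : ℕ} (e : Var D F h ↪ Fin n) (hn : n ≤ 2 * Fintype.card (Var D F h)) (U : Finset F)
    (hlow : ∀ P : Mach (Var D F h), P.Storeless → (∀ x, P.Answers x true → val h x ∉ U) →
      ∀ κ : Var D F h → ℕ, ∑ v, κ v ≤ 2 * k * Fintype.card (Var D F h) →
      (∀ L, P.Path L true → ∀ v, L.count v ≤ κ v) → Fintype.card P.Conf ≤ n ^ E →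
      2 ^ E * Nat.card {x // P.Answers x true} ≤ 2 ^ Fintype.card (Var D F h)) :
    HardT k E n (fun x => val h (fun v => x (e v)) ∉ U) := by
  classical
  rintro P hs hL ⟨κ, hκ1, hκ2⟩ hconf
  have hcomb : ∀ (x : Var D F h → Bool) (y : Fin n → Bool),
      (fun v => comb e x y (e v)) = x := by
    intro x y
    funext v
    exact comb_in e _ _ v
  have hy : ∀ y : Fin n → Bool, 2 ^ E * Nat.card {x : Var D F h → Bool //
      P.Answers (comb e x y) true} ≤ 2 ^ Fintype.card (Var D F h) := by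
    intro y
    obtain ⟨P', hs', hc', ha', hp'⟩ := restrict e P hs y
    have hans : ∀ x b, P'.Answers x b ↔ P.Answers (comb e x y) b := fun x b =>
      ha' x (comb e x y) (fun v => comb_in e x y v) (fun w hw => comb_out e x y w hw) b
    have h1 : Nat.card {x : Var D F h → Bool // P.Answers (comb e x y) true} =
        Nat.card {x // P'.Answers x true} :=
      Nat.card_congr (Equiv.subtypeEquivRight fun x => (hans x true).symm)
    rw [h1]
    refine hlow P' hs' ?_ (fun v => κ (e v)) ?_ ?_ (by rw [hc']; exact hconf)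
    · intro x hx
      have h2 : val h (fun v => comb e x y (e v)) ∉ U := hL _ ((hans x true).1 hx)
      rw [hcomb] at h2
      exact h2
    · calc ∑ v, κ (e v) = ∑ w ∈ univ.map e, κ w := (sum_map _ _ _).symm
        _ ≤ ∑ w, κ w := sum_le_sum_of_subset (subset_univ _)
        _ ≤ k * n := hκ1
        _ ≤ k * (2 * Fintype.card (Var D F h)) := Nat.mul_le_mul_left _ hn
        _ = 2 * k * Fintype.card (Var D F h) := by ring
    · intro L hL' v
      obtain ⟨L', h3, h4⟩ := hp' L true hL'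
      rw [h4]
      exact hκ2 L' h3 _
  have hpos : 0 < 2 ^ Fintype.card (Var D F h) := by positivity
  refine Nat.le_of_mul_le_mul_right ?_ hpos
  rw [mul_assoc, count_ext e (fun z => P.Answers z true), mul_sum]
  refine (sum_le_sum fun y _ => hy y).trans (le_of_eq ?_)
  rw [sum_const, card_univ, Fintype.card_fun, Fintype.card_bool, Fintype.card_fin, smul_eq_mul]

/-- a lower bound for the field -/
def BT (x : Par) : ℕ :=
  (4 * x.Q) ^ 8 * (8 * 2 ^ x.E * 2 ^ x.c) * ((x.h + 1) * nodes x.D x.h) * 2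

/-- the bits -/
def XT (x : Par) : ℕ := 2 * nodes x.D x.h * BT x

/-- The size of the field that is needed. -/
theorem hard_fieldT (x : Par) (F : Type) [Field F] [Fintype F] [DecidableEq F] [CharP F 2]
    (n : ℕ) (hq2 : 2 ∣ Fintype.card F) (hB : BT x ≤ Fintype.card F)
    (hn : n ≤ 2 * Fintype.card (Var x.D F x.h)) (e : Var x.D F x.h ↪ Fin n) (U : Finset F)
    (hU : Fintype.card F ≤ 4 * U.card) :
    HardT x.w x.E n (fun y => val x.h (fun v => y (e v)) ∉ U) := by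
  have hQ1 := x.Q_pos
  have hnod := nodes_pos x.D x.h
  have hq2' : Fintype.card F = 2 * (Fintype.card F / 2) := by omega
  have p1 : 1 ≤ (4 * x.Q) ^ 8 := Nat.one_le_pow _ _ (by omega)
  have p2 : 1 ≤ 8 * 2 ^ x.E * 2 ^ x.c := Nat.one_le_iff_ne_zero.2 (by positivity)
  have p3 : 1 ≤ (x.h + 1) * nodes x.D x.h := Nat.mul_pos (by omega) hnod
  have b1 : (4 * x.Q) ^ 8 ≤ BT x := by
    calc (4 * x.Q) ^ 8 = (4 * x.Q) ^ 8 * 1 * 1 * 1 := by ring
      _ ≤ BT x := by
        unfold BT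
        gcongr
        norm_num
  have b2 : 8 * 2 ^ x.E * 2 ^ x.c * ((x.h + 1) * nodes x.D x.h) * 2 ≤ BT x := by
    calc 8 * 2 ^ x.E * 2 ^ x.c * ((x.h + 1) * nodes x.D x.h) * 2 =
          1 * (8 * 2 ^ x.E * 2 ^ x.c) * ((x.h + 1) * nodes x.D x.h) * 2 := by ring
      _ ≤ BT x := by
        unfold BT
        gcongr
  have b3 : 2 * 2 ^ x.E * ((x.h + 1) * nodes x.D x.h) ≤ BT x := by
    refine le_trans ?_ b2
    calc 2 * 2 ^ x.E * ((x.h + 1) * nodes x.D x.h) =
          2 * 2 ^ x.E * 1 * ((x.h + 1) * nodes x.D x.h) * 1 := by ring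
      _ ≤ 8 * 2 ^ x.E * 2 ^ x.c * ((x.h + 1) * nodes x.D x.h) * 2 := by
        have : 1 ≤ 2 ^ x.c := Nat.one_le_two_pow
        gcongr
        · norm_num
        · norm_num
  have b4 : 8 * 2 ^ x.E * 2 ^ x.c ≤ BT x := by
    refine le_trans ?_ b2
    calc 8 * 2 ^ x.E * 2 ^ x.c = 8 * 2 ^ x.E * 2 ^ x.c * 1 * 1 := by ring
      _ ≤ 8 * 2 ^ x.E * 2 ^ x.c * ((x.h + 1) * nodes x.D x.h) * 2 := by
        gcongr
        norm_num
  have b5 : 2 * nodes x.D x.h ≤ BT x := by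
    refine le_trans ?_ b2
    calc 2 * nodes x.D x.h = 1 * (1 * nodes x.D x.h) * 2 := by ring
      _ ≤ 8 * 2 ^ x.E * 2 ^ x.c * ((x.h + 1) * nodes x.D x.h) * 2 := by
        gcongr
        omega
  refine hard_of_varT e hn U ?_
  intro P hs hL κ hκ1 hκ2 hconf
  refine lower_accT (k := 2 * x.w) (m := x.m) (r := Fintype.card F / 2 / x.Q)
    rfl ?_ (by unfold Par.m; omega)
    (le_refl _) ?_ P hs κ hκ1 hκ2 U hU hL (b3.trans hB) ?_
  · refine (Nat.le_div_iff_mul_le hQ1).2 ?_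
    have h0 : (4 * x.Q) ^ 2 ≤ (4 * x.Q) ^ 8 := Nat.pow_le_pow_right (by omega) (by norm_num)
    have : (4 * x.Q) ^ 2 = 16 * (x.Q * x.Q) := by ring
    have h2 : x.Q * 1 ≤ x.Q * x.Q := Nat.mul_le_mul_left _ hQ1
    omega
  · change 2 * (_ * x.Q) ≤ _
    have h1 := Nat.div_mul_le_self (Fintype.card F / 2) x.Q
    omega
  · refine numT hQ1 hq2' (b1.trans hB) (b4.trans hB) (n := n) ?_ hconf
    refine hn.trans ?_
    rw [card_var]
    calc 2 * (Fintype.card F * nodes x.D x.h) = Fintype.card F * (2 * nodes x.D x.h) := by ring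
      _ ≤ Fintype.card F * Fintype.card F := Nat.mul_le_mul_left _ (b5.trans hB)
      _ = _ := by ring

/-- the construction for all numbers of bits that are not too small -/
theorem hard_allT (Q : ∀ n, ((Fin n → Bool) → Prop) → Prop)
    (hQ' : ∀ (D h n : ℕ) (F : Type) [Field F] [Fintype F] [DecidableEq F],
      Fintype.card (Var D F h) ≤ n → ∃ e : Var D F h ↪ Fin n, ∀ T : Finset F,
        Q n (fun x => val h (fun v => x (e v)) ∈ T)) (x : Par) (n : ℕ) (hn : XT x ≤ n) :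
    ∃ L, Q n L ∧ HardT x.w x.E n L ∧ HardT x.w x.E n (fun y => ¬ L y) := by
  have hnod := nodes_pos x.D x.h
  obtain ⟨b, hb⟩ : ∃ b, b = Nat.log 2 (n / nodes x.D x.h) := ⟨_, rfl⟩
  have hB2 : 2 ≤ BT x := by
    unfold BT
    have p1 : 1 ≤ (4 * x.Q) ^ 8 := Nat.one_le_pow _ _ (by have := x.Q_pos; omega)
    have p2 : 1 ≤ 8 * 2 ^ x.E * 2 ^ x.c := Nat.one_le_iff_ne_zero.2 (by positivity)
    have p3 : 1 ≤ (x.h + 1) * nodes x.D x.h := Nat.mul_pos (by omega) hnod
    exact Nat.le_mul_of_pos_left 2 (Nat.mul_pos (Nat.mul_pos p1 p2) p3)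
  have h1 : 2 * BT x ≤ n / nodes x.D x.h := by
    refine (Nat.le_div_iff_mul_le hnod).2 (le_trans (le_of_eq ?_) hn)
    unfold XT
    ring
  have hne : n / nodes x.D x.h ≠ 0 := by omega
  have h2 : 2 ^ b ≤ n / nodes x.D x.h := by
    rw [hb]
    exact Nat.pow_log_le_self 2 hne
  have h3 : n / nodes x.D x.h < 2 ^ (b + 1) := by
    rw [hb]
    exact Nat.lt_pow_succ_log_self (by norm_num) _
  have hBb : BT x ≤ 2 ^ b := by
    rw [pow_succ] at h3
    omega
  have hb1 : 1 ≤ b := by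
    by_contra hcon
    have : b = 0 := by omega
    rw [this, pow_zero] at hBb
    omega
  obtain ⟨F, _, _, _, _, hF⟩ := exists_field b hb1
  have hcard : Fintype.card (Var x.D F x.h) = 2 ^ b * nodes x.D x.h := by rw [card_var, hF]
  have h4 : Fintype.card (Var x.D F x.h) ≤ n := by
    rw [hcard]
    exact (Nat.le_div_iff_mul_le hnod).1 h2
  have h5 : n ≤ 2 * Fintype.card (Var x.D F x.h) := by
    rw [hcard]
    have h6 := (Nat.div_lt_iff_lt_mul hnod).1 h3
    have h7 : 2 ^ (b + 1) * nodes x.D x.h = 2 * (2 ^ b * nodes x.D x.h) := by ring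
    omega
  obtain ⟨e, he⟩ := hQ' x.D x.h n F h4
  obtain ⟨T, -, hT⟩ := Finset.exists_subset_card_eq (s := (univ : Finset F))
    (n := Fintype.card F / 2) (by rw [card_univ]; omega)
  have hF2 : Fintype.card F = 2 * (Fintype.card F / 2) := by
    have : 2 ∣ Fintype.card F := by rw [hF]; exact dvd_pow_self 2 (by omega)
    omega
  have hTc : (Tᶜ : Finset F).card = Fintype.card F / 2 := by
    rw [card_compl, hT]
    omega
  refine ⟨_, he T, ?_, ?_⟩
  · have := hard_fieldT x F n (by rw [hF]; exact dvd_pow_self 2 (by omega))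
      (by rw [hF]; exact hBb) h5 e Tᶜ (by rw [hTc]; omega)
    simpa only [mem_compl, not_not] using this
  · exact hard_fieldT x F n (by rw [hF]; exact dvd_pow_self 2 (by omega))
      (by rw [hF]; exact hBb) h5 e T (by rw [hT]; omega)

/-- the growth of the number of bits -/
theorem XT_le (w : ℕ) : ∃ M, ∀ E, XT (⟨w, E⟩ : Par) ≤ 2 ^ (M * (E + 1)) := by
  obtain ⟨g, hg⟩ : ∃ g, g = GG (8 * (2 * w)) := ⟨_, rfl⟩
  obtain ⟨D, hD⟩ : ∃ D, D = DD (8 * (2 * w)) := ⟨_, rfl⟩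
  obtain ⟨a, ha⟩ : ∃ a, a = 2 ^ (8 * (2 * w) * (8 * (2 * w))) * 4 := ⟨_, rfl⟩
  obtain ⟨c, hc⟩ : ∃ c, c = 2 * (8 * (2 * w)) + 1 := ⟨_, rfl⟩
  obtain ⟨H, hH⟩ : ∃ H, H = a * (12 * c) + 1 := ⟨_, rfl⟩
  refine ⟨(2 * (D + 1) + 8 * g + 1) * H + c + 22, fun E => ?_⟩
  obtain ⟨x, hx⟩ : ∃ x : Par, x = ⟨w, E⟩ := ⟨_, rfl⟩
  have e1 : x.w = w := by rw [hx]
  have e2 : x.E = E := by rw [hx]
  have e3 : x.c = c := by rw [hc, ← e1]; rfl
  have e4 : x.h = a * (8 * E * c + 4) + 1 := by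
    have : x.h = 2 ^ (8 * (2 * x.w) * (8 * (2 * x.w))) * (2 * (8 * x.E * x.c + 4)) * 2 + 1 := rfl
    rw [this, e1, e2, e3, ha]
    ring
  have e5 : x.Q = g ^ x.h := by rw [hg, ← e1]; rfl
  have e6 : x.D = D := by rw [hD, ← e1]; rfl
  rw [← hx]
  obtain ⟨h, hh⟩ : ∃ h, h = x.h := ⟨_, rfl⟩
  rw [← hh] at e4 e5
  have hle : h ≤ H * (E + 1) := by
    rw [e4, hH]
    have h1 : 8 * E * c + 4 ≤ 12 * c * (E + 1) := by
      have : 1 ≤ c := by omega
      nlinarith
    have h2 : a * (8 * E * c + 4) ≤ a * (12 * c) * (E + 1) := by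
      calc a * (8 * E * c + 4) ≤ a * (12 * c * (E + 1)) := Nat.mul_le_mul_left _ h1
        _ = a * (12 * c) * (E + 1) := by ring
    rw [add_mul, one_mul]
    omega
  have hQ : x.Q ≤ 2 ^ (g * h) := by
    rw [e5, pow_mul]
    exact Nat.pow_le_pow_left Nat.lt_two_pow_self.le h
  have hN : nodes x.D x.h ≤ 2 ^ ((D + 1) * h) := by
    rw [← hh, e6]
    refine (nodes_le _ _).trans ?_
    rw [pow_mul]
    exact Nat.pow_le_pow_left Nat.lt_two_pow_self.le h
  have hX : XT x = 2 * nodes x.D x.h * ((4 * x.Q) ^ 8 * (8 * 2 ^ E * 2 ^ c) *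
      ((h + 1) * nodes x.D x.h) * 2) := by
    have : XT x = 2 * nodes x.D x.h * ((4 * x.Q) ^ 8 * (8 * 2 ^ x.E * 2 ^ x.c) *
      ((x.h + 1) * nodes x.D x.h) * 2) := rfl
    rw [this, e2, e3, hh]
  obtain ⟨N, hN'⟩ : ∃ N, N = (D + 1) * h := ⟨_, rfl⟩
  rw [← hN'] at hN
  have hh1 : h + 1 ≤ 2 ^ h := Nat.lt_two_pow_self
  calc XT x = 2 * nodes x.D x.h * ((4 * x.Q) ^ 8 * (8 * 2 ^ E * 2 ^ c) *
      ((h + 1) * nodes x.D x.h) * 2) := hX
    _ ≤ 2 * 2 ^ N * ((4 * 2 ^ (g * h)) ^ 8 * (8 * 2 ^ E * 2 ^ c) * (2 ^ h * 2 ^ N) * 2) := by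
        gcongr
    _ = 2 ^ (2 * N + 8 * (g * h) + E + c + h + 21) := by
        rw [mul_pow, ← pow_mul]
        ring
    _ ≤ 2 ^ (((2 * (D + 1) + 8 * g + 1) * H + c + 22) * (E + 1)) := by
        refine Nat.pow_le_pow_right (by norm_num) ?_
        have g1 : (2 * (D + 1) + 8 * g + 1) * h ≤ (2 * (D + 1) + 8 * g + 1) * (H * (E + 1)) :=
          Nat.mul_le_mul_left _ hle
        have g2 : c * 1 ≤ c * (E + 1) := Nat.mul_le_mul_left _ (by omega)
        calc 2 * N + 8 * (g * h) + E + c + h + 21 =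
              (2 * (D + 1) + 8 * g + 1) * h + E + c + 21 := by rw [hN']; ring
          _ ≤ (2 * (D + 1) + 8 * g + 1) * (H * (E + 1)) + (E + 1) + c * (E + 1) +
                21 * (E + 1) := by
              omega
          _ = _ := by ring

/-! ### The separation -/

theorem separationT (Q : ∀ n, ((Fin n → Bool) → Prop) → Prop)
    (hQ : ∀ n, ∃ L, Q n L)
    (hQ' : ∀ (D h n : ℕ) (F : Type) [Field F] [Fintype F] [DecidableEq F],
      Fintype.card (Var D F h) ≤ n → ∃ e : Var D F h ↪ Fin n, ∀ T : Finset F,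
        Q n (fun x => val h (fun v => x (e v)) ∈ T)) (k : ℕ) :
    ∃ (C : ℕ) (L : ∀ n, (Fin n → Bool) → Prop), 3 ≤ C ∧ (∀ n, Q n (L n)) ∧
      ∀ n E, C * (E + 1) ≤ Nat.log 2 n → HardT k (E + 3) n (L n) ∧
        HardT k (E + 3) n (fun y => ¬ L n y) := by
  classical
  obtain ⟨M, hM⟩ := XT_le k
  have hall : ∀ n, ∃ L : (Fin n → Bool) → Prop, Q n L ∧
      ∀ E, (4 * M + 3) * (E + 1) ≤ Nat.log 2 n → HardT k (E + 3) n L ∧
        HardT k (E + 3) n (fun y => ¬ L y) := by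
    intro n
    obtain ⟨l, hl⟩ : ∃ l, l = Nat.log 2 n := ⟨_, rfl⟩
    rw [← hl]
    by_cases hex : 4 * M + 3 ≤ l
    · obtain ⟨E, hE⟩ : ∃ E, E = l / (4 * M + 3) - 1 := ⟨_, rfl⟩
      have h1 : 1 ≤ l / (4 * M + 3) := (Nat.le_div_iff_mul_le (by omega)).2 (by omega)
      have h2 : (4 * M + 3) * (E + 1) ≤ l := by
        have : E + 1 = l / (4 * M + 3) := by omega
        rw [this]
        exact Nat.mul_div_le _ _
      have hn0 : n ≠ 0 := by
        rintro rfl
        simp at hl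
        omega
      have h5 : XT (⟨k, E + 3⟩ : Par) ≤ n := by
        refine (hM (E + 3)).trans ?_
        calc 2 ^ (M * (E + 3 + 1)) ≤ 2 ^ l := by
              refine Nat.pow_le_pow_right (by norm_num) (le_trans ?_ h2)
              nlinarith
          _ ≤ n := by
              rw [hl]
              exact Nat.pow_log_le_self 2 hn0
      obtain ⟨L, hL, hL', hL''⟩ := hard_allT Q hQ' ⟨k, E + 3⟩ n h5
      refine ⟨L, hL, fun E' hE' => ?_⟩
      have h6 : E' + 1 ≤ l / (4 * M + 3) := (Nat.le_div_iff_mul_le (by omega)).2 (by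
        rw [mul_comm]
        exact hE')
      have h7 : E' + 3 ≤ E + 3 := by omega
      exact ⟨hL'.mono h7 (by omega), hL''.mono h7 (by omega)⟩
    · obtain ⟨L, hL⟩ := hQ n
      refine ⟨L, hL, fun E hE => absurd ?_ hex⟩
      calc 4 * M + 3 = (4 * M + 3) * 1 := (mul_one _).symm
        _ ≤ (4 * M + 3) * (E + 1) := Nat.mul_le_mul_left _ (by omega)
        _ ≤ l := hE
  choose L hL hL' using hall
  exact ⟨4 * M + 3, L, by omega, hL, fun n E hE => hL' n E hE⟩

end Pool.Agent.V8H45.TS
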