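import Mathlib
import Pool.Agent.V8H39.SR.Dcf

/-!
# The tree function with a set of values as a part of a deterministic context-free language
-/

set_option autoImplicit false

open Finset

namespace Pool.Agent.V8H45.TS

open Pool.Agent.V8H39.SR Pool.Agent.V8H39.SR.Ins

variable {F : Type} [Field F] [Fintype F] [DecidableEq F] {n : ℕ}

/-- the word for the test -/
noncomputable def tstT (T : Finset F) : List Sy :=
  Sy.new :: tab 1 (Fintype.card F) fun _ s => if (mu s : F) ∈ T then 1 else 0

theorem rn_tstT (T : Finset F) (a : F) (l : List ℕ) :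
    rn (tstT T) (Md.ready, enc (nu a :: l)) = (Md.ready, enc ((if a ∈ T then 1 else 0) :: l)) := by
  unfold tstT
  rw [rn_cons]
  have : stp (Md.ready, enc (nu a :: l)) Sy.new = (Md.ready, enc (0 :: nu a :: l)) := rfl
  rw [this, rn_tab _ _ _ _ _ (by omega) (nu_lt a), mu_nu]

/-- the whole word -/
noncomputable def patT (c : F) (T : Finset F) (p : List (Ins (Fin n) F)) : List (Sy ⊕ Fin n) :=
  wd (psh c) ++ (p.flatMap wd ++ (tstT T).map Sum.inl)

theorem patT_mem (x : Fin n → Bool) (c t : F) (T : Finset F) (p : List (Ins (Fin n) F))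
    (L : List (Fin n)) (h : Run (fun v c => x v = c) t p c [] L true) :
    fillBits (patT c T p) x ∈ Ev.lang ↔ t ∈ T := by
  obtain ⟨a', l, hb, hr⟩ := rn_wds x t p c [] L true h
  have ha : a' = t := by simpa using hb.symm
  subst ha
  have e1 : fillBits (wd (psh c : Ins (Fin n) F)) x =
    Sy.new :: List.replicate (nu c) Sy.one := fillBits_inl _ _
  have e2 : rn (fillBits (patT c T p) x) (Md.ready, []) =
      (Md.ready, enc ((if a' ∈ T then 1 else 0) :: l)) := by
    unfold patT
    rw [fillBits_append, fillBits_append, rn_append, rn_append, e1, fillBits_inl]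
    have e3 := rn_new (nu c) []
    rw [show enc [] = [] from rfl] at e3
    rw [e3]
    rw [List.map_nil] at hr
    rw [hr, rn_tstT]
  rw [mem_Ev, e2]
  by_cases h : a' ∈ T
  · simp [h, enc]
  · simp [h, enc]

theorem length_patT (c : F) (T : Finset F) (p : List (Ins (Fin n) F)) (hn : Fintype.card F ≤ n)
    (hp : p.length ≤ 2 * n) : (patT c T p).length ≤ (n + 2) ^ 5 := by
  have h1 : ∀ p : List (Ins (Fin n) F), (p.flatMap wd).length ≤ p.length * (n + 2) ^ 3 := by
    intro p
    induction p with
    | nil => simp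
    | cons i p ih =>
      have h2 := length_wd i hn
      rw [List.flatMap_cons, List.length_append, List.length_cons, add_mul]
      omega
  have h2 := length_wd (psh c : Ins (Fin n) F) hn
  have h3 : (tstT T).length ≤ 1 * (1 + Fintype.card F * (1 + 1)) + 1 + 1 := by
    unfold tstT
    rw [List.length_cons]
    exact Nat.add_le_add_right (length_tab 1 _ 1 _ fun i j => by split_ifs <;> omega) 1
  unfold patT
  rw [List.length_append, List.length_append, List.length_map]
  have h4 := (h1 p).trans (Nat.mul_le_mul_right _ hp)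
  have h5 : (n + 2) ^ 3 + (2 * n * (n + 2) ^ 3 + (2 * n + 3)) ≤ (n + 2) ^ 5 := by
    have : (n + 2) ^ 5 = (n + 2) ^ 2 * (n + 2) ^ 3 := by ring
    rw [this]
    have h6 : 2 * n + 3 ≤ (n + 2) ^ 3 := by nlinarith
    nlinarith
  omega

/-- **The tree function as a part of a deterministic context-free language.** -/
theorem dcfl_patternT (F : Type) [Field F] [Fintype F] [DecidableEq F] (D h n : ℕ)
    (hn : Fintype.card (Var D F h) ≤ n) :
    ∃ e : Var D F h ↪ Fin n, ∀ T : Finset F, ∃ p : List (Sy ⊕ Fin n), p.length ≤ (n + 2) ^ 5 ∧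
      p.filterMap Sum.getRight? = List.finRange n ∧
      ∀ x, fillBits p x ∈ Ev.lang ↔ val h (fun v => x (e v)) ∈ T := by
  obtain ⟨e, p, hv, hl, hr⟩ := exists_order (F := F) D h n hn
  refine ⟨e, fun T => ⟨patT (Ins.c0 h) T p, ?_, ?_, fun x => ?_⟩⟩
  · exact length_patT _ _ _ ((Ins.card_le_var (F := F) D h).trans hn) hl
  · unfold patT
    rw [List.filterMap_append, List.filterMap_append, getRight_wd, getRight_wds, getRight_inl, hv,
      List.append_nil]
    rfl
  · obtain ⟨L, hL⟩ := hr x (val h fun v => x (e v))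
    rw [decide_eq_true rfl] at hL
    exact patT_mem x _ _ T p L hL

end Pool.Agent.V8H45.TS
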