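import Mathlib
import Pool.Agent.V8H39.SR.BP
import Pool.Agent.V8H39.SR.Main
import Pool.Agent.V8H45.TS.Final
import Pool.Agent.V8H45.TS.Pat

/-!
# The separation, for branching programs and a deterministic context-free language
-/

set_option autoImplicit false

open Finset

namespace Pool.Agent.V8H45.TS

open Pool.Agent.V8H39.SR Pool.Agent.V8H47.MH

/-- machines and branching programs -/
theorem nbp_bound {k E n : ℕ} (hn : 3 ≤ n) {L : (Fin n → Bool) → Prop} (hL : HardT k (E + 3) n L)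
    (B : NBP (Fin n)) (hB : Fintype.card B.Node ≤ n ^ E)
    (hκ : ∃ κ : Fin n → ℕ, ∑ v, κ v ≤ k * n ∧ ∀ l, B.Path l → ∀ v, l.count v ≤ κ v)
    (hacc : ∀ x, B.Accepts x → L x) :
    2 ^ E * Nat.card {x // B.Accepts x} ≤ 2 ^ n := by
  classical
  obtain ⟨κ, h2, h3⟩ := hκ
  have h4 := hL B.mach B.mach_storeless (fun x hx => hacc x ((B.mach_answers x).1 hx))
    ⟨κ, h2, fun l hl => h3 l (B.mach_path l hl)⟩ (by
      rw [B.card_mach, Fintype.card_fin]
      have h5 : 1 ≤ n ^ E := Nat.one_le_pow _ _ (by omega)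
      have h6 : 3 + n * 4 ≤ n ^ 3 := by
        have h7 : 9 ≤ n ^ 2 := by
          calc 9 = 3 ^ 2 := by norm_num
            _ ≤ n ^ 2 := Nat.pow_le_pow_left (by omega) 2
        calc 3 + n * 4 ≤ n * 9 := by omega
          _ ≤ n * n ^ 2 := Nat.mul_le_mul_left _ h7
          _ = n ^ 3 := by ring
      calc 2 + (Fintype.card B.Node + Fintype.card B.Node * (n * 4)) ≤
            2 * n ^ E + (n ^ E + n ^ E * (n * 4)) := by
            have := Nat.mul_le_mul_right (n * 4) hB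
            omega
        _ = n ^ E * (3 + n * 4) := by ring
        _ ≤ n ^ E * n ^ 3 := Nat.mul_le_mul_left _ h6
        _ = n ^ (E + 3) := (pow_add _ _ _).symm)
  have h5 : Nat.card {x // B.mach.Answers x true} = Nat.card {x // B.Accepts x} :=
    Nat.card_congr (Equiv.subtypeEquivRight fun x => B.mach_answers x)
  rw [h5] at h4
  exact (Nat.mul_le_mul_right _ (Nat.pow_le_pow_right (by norm_num) (by omega))).trans h4

theorem mainT : ∃ U ∈ oneDPDA Sy, ∀ k, ∃ (C : ℕ) (p : ∀ n, List (Sy ⊕ Fin n)),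
    (∀ n, (p n).length ≤ (n + 2) ^ 5 ∧ (p n).filterMap Sum.getRight? = List.finRange n) ∧
    ∀ n E, C * (E + 1) ≤ Nat.log 2 n → ∀ (c : Bool) (B : NBP (Fin n)),
      Fintype.card B.Node ≤ n ^ E →
      (∃ κ : Fin n → ℕ, ∑ v, κ v ≤ k * n ∧ ∀ L, B.Path L → ∀ v, L.count v ≤ κ v) →
      (∀ x, B.Accepts x → (fillBits (p n) x ∈ U ↔ c = true)) →
      2 ^ E * Nat.card {x // B.Accepts x} ≤ 2 ^ n := by
  classical
  refine ⟨Ev.lang, Ev_mem, fun k => ?_⟩
  obtain ⟨C, L, hC, hL, hhard⟩ := separationT (fun n L => ∃ p : List (Sy ⊕ Fin n),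
    p.length ≤ (n + 2) ^ 5 ∧ p.filterMap Sum.getRight? = List.finRange n ∧
      ∀ x, fillBits p x ∈ Ev.lang ↔ L x) (fun n => by
    obtain ⟨p, h1, h2, h3⟩ := dcfl_true n
    exact ⟨fun _ => True, p, h1, h2, fun x => iff_of_true (h3 x) trivial⟩)
    (fun D h n F _ _ _ hn => dcfl_patternT F D h n hn) k
  choose p hp using hL
  refine ⟨C, p, fun n => ⟨(hp n).1, (hp n).2.1⟩, fun n E hE c B hB hκ hacc => ?_⟩
  have hn : 3 ≤ n := by
    have h1 : 3 * 1 ≤ C * (E + 1) := Nat.mul_le_mul hC (by omega)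
    have h2 : Nat.log 2 n ≤ n := Nat.log_le_self 2 n
    omega
  have h1 := hhard n E hE
  cases c with
  | true =>
    exact nbp_bound hn h1.1 B hB hκ fun x hx => ((hp n).2.2 x).1 ((hacc x hx).2 rfl)
  | false =>
    refine nbp_bound hn h1.2 B hB hκ fun x hx hLx => ?_
    exact absurd ((hacc x hx).1 (((hp n).2.2 x).2 hLx)) (by decide)

end Pool.Agent.V8H45.TS
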